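import Pool.Agent.Helper10.EN.S14
import Pool.Agent.Helper78.TR.Defs

/-! Squarefree palindromes with at most three prime factors in residue classes: the weighted sum over
the sifted members of one residue class, for a general level. -/

set_option autoImplicit false

namespace Pool.Agent.Helper78.TR

open Finset Filter Pool.Agent.Helper10 Pool.Agent.Helper10.P5 Pool.Agent.Helper10.P4
  Pool.Agent.Helper10.P3 Pool.Agent.Helper10.SQ Pool.Agent.Helper10.EN

private lemma EC_sub (n m a : ℕ) : EC n m a ⊆ EP n := Finset.filter_subset _ _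

/-- the sifted members -/
noncomputable def Sl (n m a : ℕ) (lam : ℝ) : Finset (ℕ × ℕ × (Fin (n - 1) → ℕ)) :=
  sift (EC n m a) (FPal n) (zf ((1000 : ℝ) / 5216 * lam))

lemma Sl_sub (n m a : ℕ) (lam : ℝ) (e : ℕ × ℕ × (Fin (n - 1) → ℕ)) (he : e ∈ Sl n m a lam) :
    e ∈ EP n := by
  unfold Sl sift at he
  exact EC_sub n m a (Finset.mem_filter.mp he).1

lemma Sl_mod (n m a : ℕ) (lam : ℝ) (e : ℕ × ℕ × (Fin (n - 1) → ℕ)) (he : e ∈ Sl n m a lam) :
    FPal n e ≡ a [MOD m] := by
  unfold Sl sift EC at he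
  exact (Finset.mem_filter.mp (Finset.mem_filter.mp he).1).2

/-- the prime factors of a sifted member are large -/
lemma Sl_prime (n m a : ℕ) (lam : ℝ) (hn : 1 ≤ n) (e : ℕ × ℕ × (Fin (n - 1) → ℕ))
    (he : e ∈ Sl n m a lam) (p : ℕ) (hp : p.Prime) (hpN : p ∣ FPal n e) :
    p.Coprime 10 ∧ (1000 : ℝ) / 5216 * lam < Real.log p := by
  have h1 := FPal_mem n hn e (Sl_sub n m a lam e he)
  have hp10 : p.Coprime 10 := Nat.Coprime.coprime_dvd_left hpN h1.2
  refine ⟨hp10, ?_⟩
  by_contra hcon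
  push Not at hcon
  unfold Sl sift at he
  rw [Finset.mem_filter] at he
  exact he.2 p ((mem_PP_zf _ p).mpr ⟨⟨hp, hp10⟩, hcon⟩) hpN

lemma wA_le (n : ℕ) (lam : ℝ) (h : 0 < lam) (e : ℕ × ℕ × (Fin (n - 1) → ℕ)) : wA n lam e ≤ 1 := by
  unfold wA
  have : 0 ≤ ∑ p ∈ (PC ((1000 : ℝ) / 5216 * lam) (5137 / 5216 * lam)).filter
    (fun p => p ∣ FPal n e), (1 - Real.log p / (5137 / 5216 * lam)) := by
    apply Finset.sum_nonneg
    intro p hp
    rw [Finset.mem_filter, mem_PC] at hp
    have : Real.log p / (5137 / 5216 * lam) ≤ 1 := by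
      rw [div_le_one (by positivity)]
      exact hp.1.2.2
    linarith
  linarith

/-- the weight of a squarefree member with many prime factors -/
lemma wA_neg (n m a : ℕ) (hn : 10 ^ 6 ≤ n) (lam : ℝ)
    (hlam0 : 0 < lam)
    (hl1 : (2 * (n : ℝ) + 1) * Real.log 10 ≤ 2.84326 * (5137 / 5216 * lam))
    (e : ℕ × ℕ × (Fin (n - 1) → ℕ)) (he : e ∈ Sl n m a lam)
    (hsq : Squarefree (FPal n e)) (h4 : 4 ≤ (FPal n e).primeFactorsList.length) :
    wA n lam e ≤ 0 := by
  classical
  have hn1 : 1 ≤ n := by omega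
  have hnR : (10 : ℝ) ^ 6 ≤ n := by exact_mod_cast hn
  have hl0 := lg10_pos
  have hY : 0 < 5137 / 5216 * lam := by positivity
  have heE := Sl_sub n m a lam e he
  have h1 := comb3 (FPal n e) (5137 / 5216 * lam) (FPal_pos n hn1 e heE).ne' hY (by
    intro p hp _ hsq2
    have h2 := hsq p (by rwa [← pow_two])
    exact hp.one_lt.ne' (Nat.isUnit_iff.mp h2))
  have h3 : Real.log (FPal n e) / (5137 / 5216 * lam) ≤ 2.84326 := by
    rw [div_le_iff₀ hY]
    refine (FPal_log n hn1 e heE).trans ?_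
    exact hl1
  have h4R : (4 : ℝ) ≤ (FPal n e).primeFactorsList.length := by exact_mod_cast h4
  have h5 : ∑ p ∈ (FPal n e).primeFactors.filter (fun p : ℕ => Real.log (p : ℝ) ≤ 5137 / 5216 * lam),
      (1 - Real.log p / (5137 / 5216 * lam)) ≤
      ∑ p ∈ (PC ((1000 : ℝ) / 5216 * lam) (5137 / 5216 * lam)).filter (fun p => p ∣ FPal n e),
          (1 - Real.log p / (5137 / 5216 * lam)) := by
    apply Finset.sum_le_sum_of_subset_of_nonneg
    · intro p hp
      rw [Finset.mem_filter] at hp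
      have hpp := Nat.prime_of_mem_primeFactors hp.1
      have hpd := Nat.dvd_of_mem_primeFactors hp.1
      have h9 := Sl_prime n m a lam hn1 e he p hpp hpd
      rw [Finset.mem_filter, mem_PC]
      exact ⟨⟨⟨hpp, h9.1⟩, h9.2, hp.2⟩, hpd⟩
    · intro p hp _
      rw [Finset.mem_filter, mem_PC] at hp
      have : Real.log p / (5137 / 5216 * lam) ≤ 1 := by
        rw [div_le_one hY]
        exact hp.1.2.2
      linarith
  unfold wA
  linarith

/-- a sifted member is smaller than the power `15` of each of its prime factors -/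
lemma Sl_large (n m a : ℕ) (hn : 10 ^ 6 ≤ n) (lam : ℝ)
    (hlam0 : 0 < lam)
    (hl1 : (2 * (n : ℝ) + 1) * Real.log 10 ≤ 2.84326 * (5137 / 5216 * lam))
    (e : ℕ × ℕ × (Fin (n - 1) → ℕ)) (he : e ∈ Sl n m a lam) (p : ℕ)
    (hp : p.Prime) (hpN : p ∣ FPal n e) : FPal n e < p ^ 15 := by
  have hn1 : 1 ≤ n := by omega
  have hnR : (10 : ℝ) ^ 6 ≤ n := by exact_mod_cast hn
  have h1 := (Sl_prime n m a lam hn1 e he p hp hpN).2
  have h2 := FPal_log n hn1 e (Sl_sub n m a lam e he)
  have hl0 := lg10_pos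
  have hp0 : (0 : ℝ) < p := by exact_mod_cast hp.pos
  have h3 : Real.log (FPal n e) < Real.log ((p : ℝ) ^ 15) := by
    rw [Real.log_pow]
    push_cast
    have h5 : (2 * (n : ℝ) + 1) * Real.log 10 ≤ 15 * (1000 / 5216) * lam := by
      linarith
    linarith
  have hF0 : (0 : ℝ) < FPal n e := by exact_mod_cast FPal_pos n hn1 e (Sl_sub n m a lam e he)
  have h6 := (Real.log_lt_log_iff hF0 (by positivity)).mp h3
  exact_mod_cast h6

/-- the prime factors exceed `10 ^ (n / 10)` -/
lemma Sl_big (n m a : ℕ) (hn : 10 ^ 6 ≤ n) (lam : ℝ)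
    (hlam0 : 0 < lam)
    (hl1 : (2 * (n : ℝ) + 1) * Real.log 10 ≤ 2.84326 * (5137 / 5216 * lam))
    (e : ℕ × ℕ × (Fin (n - 1) → ℕ)) (he : e ∈ Sl n m a lam) (p : ℕ)
    (hp : p.Prime) (hpN : p ∣ FPal n e) : 10 ^ (n / 10) ≤ p := by
  have hn1 : 1 ≤ n := by omega
  have hnR : (10 : ℝ) ^ 6 ≤ n := by exact_mod_cast hn
  have h1 := (Sl_prime n m a lam hn1 e he p hp hpN).2
  have hl0 := lg10_pos
  have hp0 : (0 : ℝ) < p := by exact_mod_cast hp.pos
  have h3 : Real.log ((10 : ℝ) ^ (n / 10)) < Real.log p := by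
    rw [Real.log_pow]
    have h4 : ((n / 10 : ℕ) : ℝ) ≤ (n : ℝ) / 10 := Nat.cast_div_le
    have h5 : ((n / 10 : ℕ) : ℝ) * Real.log 10 ≤ 1000 / 5216 * lam := by
      have h6 : ((n / 10 : ℕ) : ℝ) * Real.log 10 ≤ (n : ℝ) / 10 * Real.log 10 :=
        mul_le_mul_of_nonneg_right h4 hl0.le
      have h7 : 0 < (n : ℝ) * Real.log 10 := by positivity
      nlinarith
    linarith
  have h5 := (Real.log_lt_log_iff (by positivity) hp0).mp h3
  have h6 : 10 ^ (n / 10) < p := by exact_mod_cast h5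
  exact h6.le

/-- the weighted sum is at most the number of good members and of non-squarefree members -/
theorem sum_wA (n m a : ℕ) (lam : ℝ) (hn : 10 ^ 6 ≤ n) (hlam : 0 < lam)
    (h1 : (2 * (n : ℝ) + 1) * Real.log 10 ≤ 2.84326 * (5137 / 5216 * lam)) :
    ∑ e ∈ sift (EC n m a) (FPal n) (zf ((1000 : ℝ) / 5216 * lam)), wA n lam e ≤
      ((threeC n m a).card : ℝ) + ((big n (10 ^ (n / 10))).card : ℝ) := by
  classical
  have hn1 : 1 ≤ n := by omega
  have hlam0 := hlam
  have hl1 := h1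
  change ∑ e ∈ Sl n m a lam, wA n lam e ≤ _
  have hpt : ∀ e ∈ Sl n m a lam, wA n lam e ≤ (if FPal n e ∈ threeC n m a then 1 else 0) +
      (if FPal n e ∈ big n (10 ^ (n / 10)) then 1 else 0) := by
    intro e he
    have heE := Sl_sub n m a lam e he
    have hw1 := wA_le n lam hlam0 e
    by_cases hsq : Squarefree (FPal n e)
    · by_cases h3 : (FPal n e).primeFactorsList.length ≤ 3
      · have : FPal n e ∈ threeC n m a := by
          unfold threeC
          rw [Finset.mem_filter]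
          exact ⟨FPal_Pal n hn1 e heE, Sl_mod n m a lam e he, hsq, h3, fun p hp hpN =>
            Sl_large n m a hn lam hlam0 hl1 e he p hp hpN⟩
        rw [if_pos this]
        split_ifs <;> linarith
      · have := wA_neg n m a hn lam hlam0 hl1 e he hsq (by omega)
        split_ifs <;> linarith
    · have : FPal n e ∈ big n (10 ^ (n / 10)) := by
        rw [Nat.squarefree_iff_prime_squarefree] at hsq
        push Not at hsq
        obtain ⟨p, hp, hpN⟩ := hsq
        have hpd : p ∣ FPal n e := (Dvd.intro p rfl).trans hpN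
        unfold big
        rw [Finset.mem_filter]
        exact ⟨FPal_Pal n hn1 e heE, p, Sl_big n m a hn lam hlam0 hl1 e he p hp hpd,
          (Sl_prime n m a lam hn1 e he p hp hpd).1, by rwa [pow_two]⟩
      rw [if_pos this]
      split_ifs <;> linarith
  refine (Finset.sum_le_sum hpt).trans ?_
  rw [Finset.sum_add_distrib]
  have hinj := FPal_inj n hn1
  have hcount : ∀ B : Finset ℕ, ∑ e ∈ Sl n m a lam, (if FPal n e ∈ B then (1 : ℝ) else 0) ≤
      (B.card : ℝ) := by
    intro B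
    rw [← Finset.sum_filter, Finset.sum_const, nsmul_eq_mul, mul_one]
    have : ((Sl n m a lam).filter (fun e => FPal n e ∈ B)).card ≤ B.card := by
      apply Finset.card_le_card_of_injOn (FPal n)
      · intro e he
        rw [Finset.mem_coe, Finset.mem_filter] at he
        exact he.2
      · intro e he e' he' h
        rw [Finset.mem_coe, Finset.mem_filter] at he he'
        exact hinj (Finset.mem_coe.mpr (Sl_sub n m a lam e he.1))
          (Finset.mem_coe.mpr (Sl_sub n m a lam e' he'.1)) h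
    exact_mod_cast this
  exact add_le_add (hcount _) (hcount _)

end Pool.Agent.Helper78.TR
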